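import Pool.Agent.H63.Star.Iface2

/-!
# Star bodies with homothetic sections: module C5 (escape to infinity)
-/

namespace Pool.Agent.H7.Star

open Pool.Agent.H63.Star
open Set Filter Topology
open scoped RealInnerProductSpace

section Transport

variable {E : Type*} [NormedAddCommGroup E] [NormedSpace ℝ E] [FiniteDimensional ℝ E]
  {F G : E → ℝ}

/-- Transport of a flat piece by the homothety of a centred plane. -/
theorem transport (hP : Planar F G) (hF : IsGauge F) (hG : IsGauge G) {ν : E →ₗ[ℝ] ℝ}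
    {v₀ w : E} {a l : ℝ} (hind : LinearIndependent ℝ ![v₀, w]) (hc : ctr F G v₀ w = a • v₀)
    (ha : a ≠ 0) (hl : rat F G v₀ w = l)
    (hv₀ : ∀ᶠ z in 𝓝 v₀, F z = ν z ∧ G z = ν z) {b : E}
    (hb : b ∈ Submodule.span ℝ {v₀, w}) (hbν : ν b = 0) (hb0 : b ≠ 0)
    {z : E} (hz : z ∈ Submodule.span ℝ {v₀, w}) (hνz : ν z = 1)
    (hGz : ∀ᶠ y in 𝓝 z, G y = ν y) :
    ∀ᶠ y in 𝓝 (a • v₀ + l • z), F y = ν y := by
  have hνc : Continuous ν := ν.continuous_of_finiteDimensional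
  have hv0 : v₀ ≠ 0 := by
    have := hind.ne_zero 0
    simpa using this
  have hl0 : 0 < l := hl ▸ rat_pos F G v₀ w
  have hself := hv₀.self_of_nhds
  have hFv : 0 < F v₀ := hF.pos v₀ hv0
  have hdata : a * ν v₀ + l = 1 := by
    have h1 := hP.rel hind
    rw [hc, hl] at h1
    have h2 := (h1.cen_data hF hG hv0 (Submodule.subset_span (by simp))).1
    rw [hself.2, hself.1, div_self (by rw [← hself.1]; exact hFv.ne')] at h2
    exact h2
  set k₀ : E := a • v₀ + l • z with hk₀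
  have hνk : ν k₀ = 1 := by
    rw [hk₀, map_add, map_smul, map_smul, hνz, smul_eq_mul, smul_eq_mul, mul_one]
    exact hdata
  have hind' : LinearIndependent ℝ ![k₀, b] := by
    rw [LinearIndependent.pair_iff]
    intro x y hxy
    have h1 : ν (x • k₀ + y • b) = 0 := by rw [hxy, map_zero]
    rw [map_add, map_smul, map_smul, hνk, hbν, smul_zero, add_zero, smul_eq_mul, mul_one] at h1
    refine ⟨h1, ?_⟩
    rw [h1, zero_smul, zero_add] at hxy
    exact (smul_eq_zero.1 hxy).resolve_right hb0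
  have hv0S : v₀ ∈ Submodule.span ℝ {v₀, w} := Submodule.subset_span (by simp)
  have hk₀S : k₀ ∈ Submodule.span ℝ {v₀, w} :=
    Submodule.add_mem _ (Submodule.smul_mem _ _ hv0S) (Submodule.smul_mem _ _ hz)
  have hspan : Submodule.span ℝ {k₀, b} = Submodule.span ℝ {v₀, w} := by
    apply Submodule.eq_of_le_of_finrank_eq
    · rw [Submodule.span_le]
      rintro y (rfl | rfl)
      · exact hk₀S
      · exact hb
    · rw [finrank_span_pair hind, finrank_span_pair hind']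
  have hpair : ContinuousAt (fun k : E => (k, b)) k₀ := continuousAt_id.prodMk continuousAt_const
  have hcc : ContinuousAt (fun k : E => ctr F G k b) k₀ :=
    ContinuousAt.comp (x := k₀) (f := fun k : E => (k, b)) (g := fun p : E × E => ctr F G p.1 p.2)
      (ctr_cont hP hF hG hind') hpair
  have hrc : ContinuousAt (fun k : E => rat F G k b) k₀ :=
    ContinuousAt.comp (x := k₀) (f := fun k : E => (k, b)) (g := fun p : E × E => rat F G p.1 p.2)
      (rat_cont hP hF hG hind') hpair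
  have e1 : ctr F G k₀ b = a • v₀ := by rw [ctr_congr hspan, hc]
  have e2 : rat F G k₀ b = l := by rw [rat_congr hspan, hl]
  -- eventual facts
  have f1 : ∀ᶠ k in 𝓝 k₀, LinearIndependent ℝ ![k, b] :=
    hpair.eventually (indep_iff_eventually hind')
  have hy : ContinuousAt (fun k : E => a⁻¹ • ctr F G k b) k₀ := hcc.const_smul a⁻¹
  have ey : a⁻¹ • ctr F G k₀ b = v₀ := by
    rw [e1, smul_smul, inv_mul_cancel₀ ha, one_smul]
  have hy' : Tendsto (fun k : E => a⁻¹ • ctr F G k b) (𝓝 k₀) (𝓝 v₀) := by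
    have := hy.tendsto
    rwa [ey] at this
  have f2 := hy'.eventually hv₀
  have f3 : ∀ᶠ k in 𝓝 k₀, a⁻¹ • ctr F G k b ≠ 0 := hy'.eventually_ne hv0
  have f4 : ∀ᶠ k in 𝓝 k₀, 0 < ν k := by
    apply (hνc.tendsto k₀).eventually (lt_mem_nhds _)
    rw [hνk]; exact one_pos
  have hz' : Tendsto (fun k : E => (rat F G k b)⁻¹ • ((ν k)⁻¹ • k - ctr F G k b)) (𝓝 k₀)
      (𝓝 z) := by
    have h1 : ContinuousAt (fun k : E => (rat F G k b)⁻¹ • ((ν k)⁻¹ • k - ctr F G k b)) k₀ := by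
      refine (hrc.inv₀ ?_).smul (((hνc.continuousAt.inv₀ ?_).smul continuousAt_id).sub hcc)
      · rw [e2]; exact hl0.ne'
      · rw [hνk]; exact one_ne_zero
    have h2 := h1.tendsto
    rw [e1, e2, hνk, inv_one, one_smul] at h2
    have e3 : l⁻¹ • (k₀ - a • v₀) = z := by
      rw [hk₀, add_sub_cancel_left, smul_smul, inv_mul_cancel₀ hl0.ne', one_smul]
    rwa [e3] at h2
  have f5 := hz'.eventually hGz
  filter_upwards [f1, f2, f3, f4, f5] with k h1 h2 h3 h4 h5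
  have hrel := hP.rel h1
  set x := ctr F G k b with hx
  set lk := rat F G k b with hlk
  have hlk0 : 0 < lk := rat_pos F G k b
  set y := a⁻¹ • x with hydef
  have hxy : x = a • y := by rw [hydef, smul_smul, mul_inv_cancel₀ ha, one_smul]
  have hyS : y ∈ Submodule.span ℝ {k, b} := Submodule.smul_mem _ _ (ctr_mem F G k b)
  have hνy : 0 < ν y := by rw [← h2.1]; exact hF.pos y h3
  have hνx : ν x + lk = 1 := by
    have h6 := hrel
    rw [hxy] at h6
    have h7 := (h6.cen_data hF hG h3 hyS).1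
    rw [h2.2, h2.1, div_self hνy.ne'] at h7
    rw [hxy, map_smul, smul_eq_mul]
    exact h7
  set zk := lk⁻¹ • ((ν k)⁻¹ • k - x) with hzk
  have hνzk : ν zk = 1 := by
    rw [hzk, map_smul, map_sub, map_smul, smul_eq_mul, smul_eq_mul, inv_mul_cancel₀ h4.ne',
      inv_mul_eq_div, div_eq_one_iff_eq hlk0.ne']
    linarith
  have hzkS : zk ∈ Submodule.span ℝ {k, b} :=
    Submodule.smul_mem _ _ (Submodule.sub_mem _ (Submodule.smul_mem _ _
      (Submodule.subset_span (by simp))) (ctr_mem F G k b))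
  have hmap := hrel.map hF hG hzkS
  rw [h5, hνzk, one_smul] at hmap
  have e4 : x + lk • zk = (ν k)⁻¹ • k := by
    rw [hzk, smul_smul, mul_inv_cancel₀ hlk0.ne', one_smul, add_sub_cancel]
  rw [e4, hF.hom _ _ (inv_nonneg.2 h4.le)] at hmap
  rw [inv_mul_eq_iff_eq_mul₀ h4.ne', mul_one] at hmap
  exact hmap

end Transport

/-- The growth argument. -/
theorem grow_real {PF PG : ℝ → Prop} {l δ : ℝ} (hl : 0 < l) (hl1 : l ≠ 1) (hδ : 0 < δ)
    (hT : ∀ τ, PG τ → PF (l * τ)) (hT' : ∀ τ, PF τ → PG (l⁻¹ * τ))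
    (hFG : ∀ s, 0 ≤ s → (∀ τ, 0 ≤ τ → τ ≤ s → PF τ) → ∀ τ, 0 ≤ τ → τ ≤ s → PG τ)
    (hGF : ∀ s, 0 ≤ s → (∀ τ, 0 ≤ τ → τ ≤ s → PG τ) → ∀ τ, 0 ≤ τ → τ ≤ s → PF τ)
    (base : ∀ τ, 0 ≤ τ → τ ≤ δ → PF τ ∧ PG τ) : ∀ τ, 0 ≤ τ → PG τ := by
  have main : ∀ m : ℝ, 1 < m → (∀ s, 0 ≤ s → (∀ τ, 0 ≤ τ → τ ≤ s → PF τ ∧ PG τ) →
      ∀ τ, 0 ≤ τ → τ ≤ m * s → PF τ ∧ PG τ) → ∀ τ, 0 ≤ τ → PG τ := by
    intro m hm hstep τ hτ
    have hn : ∀ n : ℕ, ∀ τ, 0 ≤ τ → τ ≤ m ^ n * δ → PF τ ∧ PG τ := by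
      intro n
      induction n with
      | zero => simpa using base
      | succ n ih =>
        intro τ h0 h1
        refine hstep (m ^ n * δ) (by positivity) ih τ h0 ?_
        rw [pow_succ] at h1
        linarith
    obtain ⟨n, hn'⟩ := pow_unbounded_of_one_lt (τ / δ) hm
    refine (hn n τ hτ ?_).2
    rw [div_lt_iff₀ hδ] at hn'
    exact hn'.le
  rcases lt_or_gt_of_ne hl1 with h | h
  · -- `l < 1`
    refine main l⁻¹ ((one_lt_inv₀ hl).2 h) ?_
    intro s hs ih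
    have hPG : ∀ τ, 0 ≤ τ → τ ≤ l⁻¹ * s → PG τ := by
      intro τ h0 h1
      have h2 := hT' (l * τ) (ih (l * τ) (by positivity) (by
        rw [inv_mul_eq_div, le_div_iff₀ hl] at h1
        linarith)).1
      rwa [← mul_assoc, inv_mul_cancel₀ hl.ne', one_mul] at h2
    have hPF := hGF (l⁻¹ * s) (by positivity) hPG
    exact fun τ h0 h1 => ⟨hPF τ h0 h1, hPG τ h0 h1⟩
  · refine main l h ?_
    intro s hs ih
    have hPF : ∀ τ, 0 ≤ τ → τ ≤ l * s → PF τ := by
      intro τ h0 h1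
      have h2 := hT (l⁻¹ * τ) (ih (l⁻¹ * τ) (by positivity) (by
        rw [inv_mul_eq_div, div_le_iff₀ hl]
        linarith)).2
      rwa [← mul_assoc, mul_inv_cancel₀ hl.ne', one_mul] at h2
    have hPG := hFG (l * s) (by positivity) hPF
    exact fun τ h0 h1 => ⟨hPF τ h0 h1, hPG τ h0 h1⟩

/-- Along a segment on which `G` is linear the two gauges agree. -/
theorem const_transfer (h4 : ConstStmt) {E : Type} [NormedAddCommGroup E] [InnerProductSpace ℝ E]
    [FiniteDimensional ℝ E] {F G : E → ℝ} (hF : IsGauge F) (hG : IsGauge G) (hP : Planar F G)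
    (h3 : 3 ≤ Module.finrank ℝ E) {c₀ : ℝ} {ν : E →ₗ[ℝ] ℝ}
    (hc : ∀ u, u ≠ 0 → F u / G u = F (-u) / G (-u) → F u / G u = c₀)
    {p₀ b : E} (hν : ν p₀ = 1) (hνb : ν b = 0) (hp₀ : F p₀ = ν p₀) {s : ℝ} (hs : 0 ≤ s)
    (hseg : ∀ τ, 0 ≤ τ → τ ≤ s → ∀ᶠ y in 𝓝 (p₀ + τ • b), G y = ν y) :
    ∀ τ, 0 ≤ τ → τ ≤ s → ∀ᶠ y in 𝓝 (p₀ + τ • b), F y = ν y := by
  have hνc : Continuous ν := ν.continuous_of_finiteDimensional
  set A : Set E := {z | (∀ᶠ y in 𝓝 z, G y = ν y) ∧ 0 < ν z} with hA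
  have hAo : IsOpen A := by
    apply IsOpen.inter
    · exact isOpen_setOfPred_eventually_nhds
    · exact isOpen_lt continuous_const hνc
  set K : Set E := (fun τ : ℝ => p₀ + τ • b) '' Icc 0 s with hK
  have hKp : IsPreconnected K := by
    apply isPreconnected_Icc.image
    fun_prop
  have hKA : K ⊆ A := by
    rintro z ⟨τ, hτ, rfl⟩
    refine ⟨hseg τ hτ.1 hτ.2, ?_⟩
    show 0 < ν (p₀ + τ • b)
    rw [map_add, map_smul, hν, hνb, smul_zero, add_zero]
    exact one_pos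
  have hp₀K : p₀ ∈ K := ⟨0, ⟨le_rfl, hs⟩, by simp⟩
  set B : Set E := connectedComponentIn A p₀ with hB
  have hBo : IsOpen B := hAo.connectedComponentIn
  have hBp : IsPreconnected B := isPreconnected_connectedComponentIn
  have hBA : B ⊆ A := connectedComponentIn_subset A p₀
  have hKB : K ⊆ B := hKp.subset_connectedComponentIn hp₀K hKA
  have h0B : (0 : E) ∉ B := by
    intro h
    have := (hBA h).2
    rw [map_zero] at this
    exact lt_irrefl _ this
  have hGB : ∀ z ∈ B, G z = ν z := fun z hz => (hBA hz).1.self_of_nhds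
  have key := h4 E F G hF hG hP h3 c₀ ν B hc hBo hBp h0B hGB
  intro τ h0 h1
  have hmem : p₀ + τ • b ∈ B := hKB ⟨τ, ⟨h0, h1⟩, rfl⟩
  filter_upwards [hBo.mem_nhds hmem] with y hy
  have h5 := key y hy p₀ (hKB hp₀K)
  rw [hp₀, hGB p₀ (hKB hp₀K), hν, div_one, div_eq_one_iff_eq] at h5
  · rw [h5, hGB y hy]
  · rw [hGB y hy]; exact (hBA hy).2.ne'

/-- **C5.** -/
theorem escape (h4 : ConstStmt) : EscapeStmt := by
  intro E _ _ _ F G hF hG hP h3 c₀ ν v₀ ε hc hv0 hε hball hne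
  have hνc : Continuous ν := ν.continuous_of_finiteDimensional
  have hv₀ : ∀ᶠ z in 𝓝 v₀, F z = ν z ∧ G z = ν z := by
    filter_upwards [Metric.ball_mem_nhds v₀ hε] with z hz
    exact hball z hz
  have hself := hv₀.self_of_nhds
  have hνv : 0 < ν v₀ := by rw [← hself.1]; exact hF.pos v₀ hv0
  -- a centred plane
  obtain ⟨w₁, w₂, hw⟩ : ∃ w₁ w₂ : E, LinearIndependent ℝ ![v₀, w₁, w₂] := by
    have i1 : LinearIndependent ℝ ![v₀] := by
      rw [linearIndependent_unique_iff]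
      simpa using hv0
    obtain ⟨w₁, i2⟩ := exists_linearIndependent_snoc_of_lt_finrank i1 (by omega)
    obtain ⟨w₂, i3⟩ := exists_linearIndependent_snoc_of_lt_finrank i2 (by omega)
    refine ⟨w₁, w₂, ?_⟩
    have e : (![v₀, w₁, w₂] : Fin 3 → E) = Fin.snoc (Fin.snoc ![v₀] w₁) w₂ := by
      ext i
      fin_cases i <;> rfl
    rw [e]
    exact i3
  obtain ⟨s, t, -, hind, hcen⟩ := exists_cen hP hF hG hw
  set w : E := s • w₁ + t • w₂ with hwdef
  obtain ⟨a, hca⟩ := hcen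
  have ha : a ≠ 0 := by
    intro h0
    apply hne w hind
    rw [hca, h0, zero_smul]
  set l := rat F G v₀ w with hl
  have hl0 : 0 < l := rat_pos F G v₀ w
  have hdata : a * ν v₀ + l = 1 := by
    have h1 := hP.rel hind
    rw [hca] at h1
    have h2 := (h1.cen_data hF hG hv0 (Submodule.subset_span (by simp))).1
    rw [hself.2, hself.1, div_self hνv.ne'] at h2
    exact h2
  have hl1 : l ≠ 1 := by
    intro h
    rw [h] at hdata
    have : a * ν v₀ = 0 := by linarith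
    rcases mul_eq_zero.1 this with h | h
    · exact ha h
    · exact hνv.ne' h
  -- symmetric data
  have hsymm := ctr_symm hP hF hG hind
  have hca' : ctr G F v₀ w = (-(l⁻¹ * a)) • v₀ := by
    rw [hsymm.1, hca, smul_smul, neg_smul]
  have hl' : rat G F v₀ w = l⁻¹ := hsymm.2
  have ha' : -(l⁻¹ * a) ≠ 0 := by
    rw [neg_ne_zero]
    exact mul_ne_zero (inv_ne_zero hl0.ne') ha
  have hc' : ∀ u, u ≠ 0 → G u / F u = G (-u) / F (-u) → G u / F u = c₀⁻¹ := by
    intro u hu h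
    have h1 := hc u hu (by
      rw [← inv_div (G u) (F u), ← inv_div (G (-u)) (F (-u)), h])
    rw [← inv_div, h1]
  have hv₀' : ∀ᶠ z in 𝓝 v₀, G z = ν z ∧ F z = ν z := by
    filter_upwards [hv₀] with z hz
    exact ⟨hz.2, hz.1⟩
  -- the line
  set p₀ : E := (ν v₀)⁻¹ • v₀ with hp₀
  have hνp : ν p₀ = 1 := by
    rw [hp₀, map_smul, smul_eq_mul, inv_mul_cancel₀ hνv.ne']
  set b : E := w - (ν w / ν v₀) • v₀ with hb
  have hv0S : v₀ ∈ Submodule.span ℝ {v₀, w} := Submodule.subset_span (by simp)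
  have hwS : w ∈ Submodule.span ℝ {v₀, w} := Submodule.subset_span (by simp)
  have hbS : b ∈ Submodule.span ℝ {v₀, w} :=
    Submodule.sub_mem _ hwS (Submodule.smul_mem _ _ hv0S)
  have hνb : ν b = 0 := by
    rw [hb, map_sub, map_smul, smul_eq_mul, div_mul_cancel₀ _ hνv.ne', sub_self]
  have hb0 : b ≠ 0 := by
    intro h0
    have h1 := LinearIndependent.pair_iff.1 hind (-(ν w / ν v₀)) 1 (by
      rw [← h0, hb]; module)
    exact one_ne_zero h1.2
  have hp₀S : p₀ ∈ Submodule.span ℝ {v₀, w} := Submodule.smul_mem _ _ hv0S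
  have hzS : ∀ τ : ℝ, p₀ + τ • b ∈ Submodule.span ℝ {v₀, w} := fun τ =>
    Submodule.add_mem _ hp₀S (Submodule.smul_mem _ _ hbS)
  have hνz : ∀ τ : ℝ, ν (p₀ + τ • b) = 1 := by
    intro τ
    rw [map_add, hνp, map_smul, hνb, smul_zero, add_zero]
  -- linear near `p₀`
  have hnear : ∀ᶠ y in 𝓝 p₀, F y = ν y ∧ G y = ν y := by
    have ht : Tendsto (fun y : E => ν v₀ • y) (𝓝 p₀) (𝓝 v₀) := by
      have h1 : Continuous fun y : E => ν v₀ • y := by fun_prop
      have h2 := h1.tendsto p₀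
      have e : ν v₀ • p₀ = v₀ := by
        rw [hp₀, smul_smul, mul_inv_cancel₀ hνv.ne', one_smul]
      rwa [e] at h2
    filter_upwards [ht.eventually hv₀] with y hy
    rw [hF.hom _ _ hνv.le, hG.hom _ _ hνv.le, map_smul, smul_eq_mul] at hy
    exact ⟨mul_left_cancel₀ hνv.ne' hy.1, mul_left_cancel₀ hνv.ne' hy.2⟩
  have hFp : F p₀ = ν p₀ := hnear.self_of_nhds.1
  have hGp : G p₀ = ν p₀ := hnear.self_of_nhds.2
  obtain ⟨δ, hδ, hδs⟩ : ∃ δ : ℝ, 0 < δ ∧ ∀ τ : ℝ, 0 ≤ τ → τ ≤ δ →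
      ∀ᶠ y in 𝓝 (p₀ + τ • b), F y = ν y ∧ G y = ν y := by
    have h1 : ∀ᶠ z in 𝓝 p₀, ∀ᶠ y in 𝓝 z, F y = ν y ∧ G y = ν y :=
      eventually_eventually_nhds.2 hnear
    have ht : Tendsto (fun τ : ℝ => p₀ + τ • b) (𝓝 0) (𝓝 p₀) := by
      have h2 : Continuous fun τ : ℝ => p₀ + τ • b := by fun_prop
      have h3 := h2.tendsto 0
      simpa using h3
    have h4 := ht.eventually h1
    rw [Metric.eventually_nhds_iff] at h4
    obtain ⟨δ, hδ, h5⟩ := h4
    refine ⟨δ / 2, by positivity, fun τ h0 h1 => h5 ?_⟩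
    rw [Real.dist_eq, sub_zero, abs_of_nonneg h0]
    linarith
  -- transport
  have eT : ∀ τ : ℝ, a • v₀ + l • (p₀ + τ • b) = p₀ + (l * τ) • b := by
    intro τ
    have h1 : a • v₀ = (1 - l) • p₀ := by
      rw [hp₀, smul_smul]
      congr 1
      field_simp
      linarith
    rw [h1]
    module
  have eT' : ∀ τ : ℝ, (-(l⁻¹ * a)) • v₀ + l⁻¹ • (p₀ + τ • b) = p₀ + (l⁻¹ * τ) • b := by
    intro τ
    have h1 : (-(l⁻¹ * a)) • v₀ = (1 - l⁻¹) • p₀ := by
      rw [hp₀, smul_smul]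
      congr 1
      field_simp
      linarith
    rw [h1]
    module
  have hall := grow_real (PF := fun τ => ∀ᶠ y in 𝓝 (p₀ + τ • b), F y = ν y)
    (PG := fun τ => ∀ᶠ y in 𝓝 (p₀ + τ • b), G y = ν y) hl0 hl1 hδ
    (by
      intro τ h
      have := transport hP hF hG hind hca ha hl.symm hv₀ hbS hνb hb0 (hzS τ) (hνz τ) h
      rwa [eT] at this)
    (by
      intro τ h
      have := transport hP.symm hG hF hind hca' ha' hl' hv₀' hbS hνb hb0 (hzS τ) (hνz τ) h
      rwa [eT'] at this)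
    (fun s hs h => const_transfer h4 hG hF hP.symm h3 hc' hνp hνb hGp hs h)
    (fun s hs h => const_transfer h4 hF hG hP h3 hc hνp hνb hFp hs h)
    (fun τ h0 h1 => ⟨(hδs τ h0 h1).mono fun y hy => hy.1, (hδs τ h0 h1).mono fun y hy => hy.2⟩)
  -- contradiction
  obtain ⟨m, hm, hlow⟩ := hG.lower
  have hbpos : 0 < ‖b‖ := norm_pos_iff.2 hb0
  set τ : ℝ := (1 / m + ‖p₀‖ + 1) / ‖b‖ with hτ
  have hτ0 : 0 ≤ τ := by positivity
  have h1 := (hall τ hτ0).self_of_nhds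
  rw [hνz] at h1
  have h2 := hlow (p₀ + τ • b)
  rw [h1] at h2
  have h5 : ‖τ • b‖ = 1 / m + ‖p₀‖ + 1 := by
    rw [norm_smul, Real.norm_of_nonneg hτ0, hτ, div_mul_cancel₀ _ hbpos.ne']
  have h6 : ‖τ • b‖ ≤ ‖p₀ + τ • b‖ + ‖p₀‖ := by
    have := norm_sub_le (p₀ + τ • b) p₀
    rwa [add_sub_cancel_left] at this
  have h7 : ‖p₀ + τ • b‖ ≤ 1 / m := by
    rw [le_div_iff₀ hm]; linarith
  linarith

end Pool.Agent.H7.Star
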